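import Pool.Agent.Helper34.Sys.Two

/-!
# The tower of a locally 6-large graph
-/

set_option autoImplicit false

namespace Pool.Agent.Helper34.Sys

variable {V : Type}

/-- The bottom pair of levels. -/
def base (v : V) : Two V where
  S0 := Empty
  p0 := fun e => e.elim
  H0 := fun _ _ => False
  S1 := Unit
  p1 := fun _ => v
  H1 := fun _ _ => False
  D := fun _ _ => False

/-- The pair of levels `n - 1` and `n`. -/
def lv (G : SimpleGraph V) (v : V) : ℕ → Two V
  | 0 => base v
  | n + 1 => next G (lv G v n)

theorem good_base (G : SimpleGraph V) (v : V) : Good G (base v) where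
  symm1 := fun _ _ h => h.elim
  adj1 := fun _ _ h => h.elim
  adjD := fun _ _ h => h.elim
  adj0 := fun _ _ h => h.elim
  C := fun _ _ _ h => h.elim
  K := fun _ _ h => h.elim
  PHU := fun _ _ _ h => h.elim
  PHT := fun _ _ _ h => h.elim
  HHU := fun _ _ _ h => h.elim
  HHT := fun _ _ _ h => h.elim
  Ext := fun _ _ h => Or.inr (Or.inr ⟨h, fun s => s.elim⟩)

theorem good_lv {G : SimpleGraph V} (hL : Loc6 G) (v : V) (n : ℕ) : Good G (lv G v n) := by
  induction n with
  | zero => exact good_base G v
  | succ n ih => exact good_next hL ih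

/-- Adjacency of states. -/
inductive AA (G : SimpleGraph V) (v : V) : (Σ n, (lv G v n).S1) → (Σ n, (lv G v n).S1) → Prop
  | hor (n : ℕ) (s t : (lv G v n).S1) (h : (lv G v n).H1 s t) : AA G v ⟨n, s⟩ ⟨n, t⟩
  | up (n : ℕ) (s : (lv G v n).S1) (t : (lv G v (n + 1)).S1) (h : (lv G v (n + 1)).D s t) :
      AA G v ⟨n, s⟩ ⟨n + 1, t⟩
  | down (n : ℕ) (s : (lv G v n).S1) (t : (lv G v (n + 1)).S1) (h : (lv G v (n + 1)).D s t) :
      AA G v ⟨n + 1, t⟩ ⟨n, s⟩

/-- The tower. -/
noncomputable def tower {G : SimpleGraph V} (hL : Loc6 G) (v : V) : Tower G v where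
  E := Σ n, (lv G v n).S1
  p := fun e => (lv G v e.1).p1 e.2
  lev := fun e => e.1
  A := AA G v
  root := ⟨0, ()⟩
  p_root := rfl
  lev_root := rfl
  eq_root := by
    rintro ⟨n, s⟩ h
    simp only at h
    subst h
    rfl
  symm := by
    rintro e f h
    cases h with
    | hor n s t h => exact AA.hor n t s ((good_lv hL v n).symm1 s t h)
    | up n s t h => exact AA.down n s t h
    | down n s t h => exact AA.up n s t h
  adj := by
    rintro e f h
    cases h with
    | hor n s t h => exact (good_lv hL v n).adj1 s t h
    | up n s t h => exact (good_lv hL v (n + 1)).adjD s t h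
    | down n s t h => exact ((good_lv hL v (n + 1)).adjD s t h).symm
  lift := by
    rintro ⟨n, s⟩ y h
    rcases (good_lv hL v n).Ext s y h with h1 | ⟨t, h1, h2⟩ | h1
    · cases n with
      | zero =>
        obtain ⟨t, _⟩ := h1
        exact t.elim
      | succ n =>
        obtain ⟨t, ht, h2⟩ := h1
        exact ⟨⟨n, t⟩, AA.down n t s ht, h2⟩
    · exact ⟨⟨n, t⟩, AA.hor n s t h1, h2⟩
    · refine ⟨⟨n + 1, ⟨(PS G (lv G v n) s y, y), s, h1, rfl⟩⟩, AA.up n s _ ?_, rfl⟩
      exact ⟨Or.inl rfl, h1⟩
  uniq := by
    rintro e f g h1 h2 h3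
    cases h1 with
    | hor n s t h1 =>
      cases h2 with
      | hor _ _ u h2 =>
        rw [(good_lv hL v n).HHU s t u h1 h2 h3]
      | up _ _ u h2 =>
        exfalso
        obtain ⟨d, hds, hdt⟩ := (good_lv hL v n).K s t h1
        have h4 := (mem_up h2).2 d hds
        apply h4.2
        have h5 := (good_lv hL v n).adjD d t hdt
        have h3' : (lv G v n).p1 t = u.1.2 := h3
        rw [← h3']
        exact h5.symm
      | down m u w h2 =>
        exact absurd h3.symm ((good_lv hL v (m + 1)).PHU u w t h2 h1)
    | up n s t h1 =>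
      cases h2 with
      | hor _ _ u h2 =>
        exfalso
        obtain ⟨d, hds, hdt⟩ := (good_lv hL v n).K s u h2
        have h4 := (mem_up h1).2 d hds
        apply h4.2
        have h5 := (good_lv hL v n).adjD d u hdt
        have h3' : t.1.2 = (lv G v n).p1 u := h3
        rw [h3']
        exact h5.symm
      | up _ _ u h2 =>
        rw [q_ext hL (good_lv hL v n) h1 h2 h3]
      | down m u _ h2 =>
        exfalso
        have h4 := (mem_up h1).2 u h2
        exact h4.1 h3
    | down m u s h1 =>
      cases h2 with
      | hor _ _ t h2 =>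
        exact absurd h3 ((good_lv hL v (m + 1)).PHU u s t h1 h2)
      | up _ _ t h2 =>
        exfalso
        have h4 := (mem_up h2).2 u h1
        exact h4.1 h3.symm
      | down _ w _ h2 =>
        rcases (good_lv hL v (m + 1)).C u w s h1 h2 with h | h
        · rw [h]
        · exact absurd h3 ((good_lv hL v (m + 1)).adj0 u w h).ne
  tri := by
    rintro e f g h1 h2 h3
    cases h1 with
    | hor n s t h1 =>
      cases h2 with
      | hor _ _ u h2 =>
        exact AA.hor n t u ((good_lv hL v n).HHT s t u h1 h2 h3)
      | up _ _ u h2 =>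
        refine AA.up n t u ?_
        have h3' : G.Adj ((lv G v n).p1 t) u.1.2 := h3
        change t ∈ u.1.1
        have h2' : s ∈ u.1.1 := h2
        rw [eq_PS hL (good_lv hL v n) h2']
        exact ⟨Or.inr ((good_lv hL v n).symm1 _ _ h1),
          upComp hL (good_lv hL v n) h1 (mem_up h2').1 h3' (mem_up h2')⟩
      | down m u w h2 =>
        exact AA.down m u t ((good_lv hL v (m + 1)).PHT u w t h2 h1 h3.symm)
    | up n s t h1 =>
      cases h2 with
      | hor _ _ u h2 =>
        refine AA.down n u t ?_
        have h3' : G.Adj ((lv G v n).p1 u) t.1.2 := h3.symm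
        change u ∈ t.1.1
        have h1' : s ∈ t.1.1 := h1
        rw [eq_PS hL (good_lv hL v n) h1']
        exact ⟨Or.inr ((good_lv hL v n).symm1 _ _ h2),
          upComp hL (good_lv hL v n) h2 (mem_up h1').1 h3' (mem_up h1')⟩
      | up _ _ u h2 =>
        refine AA.hor (n + 1) t u ⟨h3, s, h1, h2⟩
      | down m u _ h2 =>
        exfalso
        have h4 := (mem_up h1).2 u h2
        exact h4.2 h3
    | down m u s h1 =>
      cases h2 with
      | hor _ _ t h2 =>
        exact AA.up m u t ((good_lv hL v (m + 1)).PHT u s t h1 h2 h3)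
      | up _ _ t h2 =>
        exfalso
        have h4 := (mem_up h2).2 u h1
        exact h4.2 h3.symm
      | down _ w _ h2 =>
        rcases (good_lv hL v (m + 1)).C u w s h1 h2 with h | h
        · subst h
          exact absurd rfl h3.ne
        · exact AA.hor m u w h
  lev_le := by
    rintro e f h
    cases h with
    | hor n s t h => exact Nat.le_succ n
    | up n s t h => exact le_rfl
    | down n s t h =>
      change n ≤ n + 1 + 1
      omega
  pred := by
    rintro ⟨n, s⟩ h
    cases n with
    | zero => exact absurd rfl h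
    | succ n =>
      obtain ⟨⟨P, y⟩, a, ha, hP⟩ := s
      refine ⟨⟨n, a⟩, AA.down n a _ ?_, rfl⟩
      change a ∈ P
      simp only at hP
      rw [hP]
      exact ⟨Or.inl rfl, ha⟩
  clique := by
    rintro e f g h1 h2 h3 h4
    cases h1 with
    | hor n s t h1 =>
      simp only at h3
      omega
    | up n s t h1 =>
      simp only at h3
      omega
    | down m u s h1 =>
      cases h2 with
      | hor _ _ t h2 =>
        simp only at h4
        omega
      | up _ _ t h2 =>
        simp only at h4
        omega
      | down _ w _ h2 =>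
        rcases (good_lv hL v (m + 1)).C u w s h1 h2 with h | h
        · left; rw [h]
        · right; exact AA.hor m u w h
  common := by
    rintro e f h1 h2
    cases h1 with
    | hor n s t h1 =>
      cases n with
      | zero => exact h1.elim
      | succ n =>
        obtain ⟨d, hds, hdt⟩ := (good_lv hL v (n + 1)).K s t h1
        exact ⟨⟨n, d⟩, AA.down n d s hds, AA.down n d t hdt, rfl⟩
    | up n s t h1 =>
      simp only at h2
      omega
    | down m u s h1 =>
      simp only at h2
      omega

theorem exists_tower {G : SimpleGraph V} (hL : Loc6 G) (v : V) : Nonempty (Tower G v) :=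
  ⟨tower hL v⟩

end Pool.Agent.Helper34.Sys
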