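import Mathlib

/-!
# Systolic complexes: the graph interface

Local 6-largeness, edge paths and their elementary moves, and the tower (the levelwise constructed
covering of a locally 6-large flag complex) at the level of graphs.
-/

set_option autoImplicit false

namespace Pool.Agent.Helper34.Sys

/-- No neighbourhood `N(x)` contains an induced 4-cycle or an induced 5-cycle. -/
def Loc6 {V : Type} (G : SimpleGraph V) : Prop :=
  (∀ x a b c d : V, G.Adj x a → G.Adj x b → G.Adj x c → G.Adj x d →
    G.Adj a b → G.Adj b c → G.Adj c d → G.Adj d a →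
    a ≠ c → ¬ G.Adj a c → b ≠ d → ¬ G.Adj b d → False) ∧
  (∀ x a b c d e : V, G.Adj x a → G.Adj x b → G.Adj x c → G.Adj x d → G.Adj x e →
    G.Adj a b → G.Adj b c → G.Adj c d → G.Adj d e → G.Adj e a →
    a ≠ c → ¬ G.Adj a c → b ≠ d → ¬ G.Adj b d → c ≠ e → ¬ G.Adj c e →
    d ≠ a → ¬ G.Adj d a → e ≠ b → ¬ G.Adj e b → False)

/-- Edge paths: consecutive vertices are equal or adjacent. -/
def EdgePath {V : Type} (G : SimpleGraph V) (l : List V) : Prop :=
  List.IsChain (fun a b => a = b ∨ G.Adj a b) l

/-- The elementary move on edge paths: `a b c` is replaced by `a c` when `a, b, c` are pairwise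
equal or adjacent. -/
inductive Move {V : Type} (G : SimpleGraph V) : List V → List V → Prop
  | mk (l₁ l₂ : List V) (a b c : V) (hab : a = b ∨ G.Adj a b) (hbc : b = c ∨ G.Adj b c)
      (hac : a = c ∨ G.Adj a c) : Move G (l₁ ++ a :: b :: c :: l₂) (l₁ ++ a :: c :: l₂)

/-- Every closed edge path is equivalent to the constant edge path at its base point. -/
def SimplyConn {V : Type} (G : SimpleGraph V) : Prop :=
  ∀ (v : V) (l : List V), EdgePath G (v :: l ++ [v]) →
    Relation.EqvGen (Move G) (v :: l ++ [v]) [v, v]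

/-- The tower over the root `v`: a covering of the clique complex of `G`, with levels. -/
structure Tower {V : Type} (G : SimpleGraph V) (v : V) where
  E : Type
  p : E → V
  lev : E → ℕ
  A : E → E → Prop
  root : E
  p_root : p root = v
  lev_root : lev root = 0
  eq_root : ∀ e, lev e = 0 → e = root
  symm : ∀ e f, A e f → A f e
  adj : ∀ e f, A e f → G.Adj (p e) (p f)
  lift : ∀ e y, G.Adj (p e) y → ∃ f, A e f ∧ p f = y
  uniq : ∀ e f g, A e f → A e g → p f = p g → f = g
  tri : ∀ e f g, A e f → A e g → G.Adj (p f) (p g) → A f g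
  lev_le : ∀ e f, A e f → lev f ≤ lev e + 1
  pred : ∀ e, lev e ≠ 0 → ∃ f, A e f ∧ lev f + 1 = lev e
  clique : ∀ e f g, A e f → A e g → lev f + 1 = lev e → lev g + 1 = lev e → f = g ∨ A f g
  common : ∀ e f, A e f → lev e = lev f → ∃ g, A e g ∧ A f g ∧ lev g + 1 = lev e

end Pool.Agent.Helper34.Sys
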