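import Pool.Agent.Helper34.Sys.Iface

/-!
# Two consecutive levels of the tower
-/

set_option autoImplicit false

namespace Pool.Agent.Helper34.Sys

variable {V : Type}

/-- Two consecutive levels of the tower. -/
structure Two (V : Type) where
  S0 : Type
  p0 : S0 → V
  H0 : S0 → S0 → Prop
  S1 : Type
  p1 : S1 → V
  H1 : S1 → S1 → Prop
  D : S0 → S1 → Prop

/-- `y` is an upward neighbour of the end of `t`. -/
def Up (G : SimpleGraph V) (T : Two V) (t : T.S1) (y : V) : Prop :=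
  G.Adj (T.p1 t) y ∧ ∀ s, T.D s t → y ≠ T.p0 s ∧ ¬ G.Adj y (T.p0 s)

/-- The set of states below the new state over `y`. -/
def PS (G : SimpleGraph V) (T : Two V) (a : T.S1) (y : V) : Set T.S1 :=
  {b | (b = a ∨ T.H1 b a) ∧ Up G T b y}

/-- The next pair of levels. -/
def next (G : SimpleGraph V) (T : Two V) : Two V where
  S0 := T.S1
  p0 := T.p1
  H0 := T.H1
  S1 := {q : Set T.S1 × V // ∃ a, Up G T a q.2 ∧ q.1 = PS G T a q.2}
  p1 q := q.1.2
  H1 q r := G.Adj q.1.2 r.1.2 ∧ ∃ a, a ∈ q.1.1 ∧ a ∈ r.1.1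
  D a q := a ∈ q.1.1

/-- The invariants of two consecutive levels. -/
structure Good (G : SimpleGraph V) (T : Two V) : Prop where
  symm1 : ∀ s t, T.H1 s t → T.H1 t s
  adj1 : ∀ s t, T.H1 s t → G.Adj (T.p1 s) (T.p1 t)
  adjD : ∀ s t, T.D s t → G.Adj (T.p0 s) (T.p1 t)
  adj0 : ∀ s t, T.H0 s t → G.Adj (T.p0 s) (T.p0 t)
  C : ∀ s s' t, T.D s t → T.D s' t → s = s' ∨ T.H0 s s'
  K : ∀ t t', T.H1 t t' → ∃ s, T.D s t ∧ T.D s t'
  PHU : ∀ s t t', T.D s t → T.H1 t t' → T.p0 s ≠ T.p1 t'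
  PHT : ∀ s t t', T.D s t → T.H1 t t' → G.Adj (T.p0 s) (T.p1 t') → T.D s t'
  HHU : ∀ t t' t'', T.H1 t t' → T.H1 t t'' → T.p1 t' = T.p1 t'' → t' = t''
  HHT : ∀ t t' t'', T.H1 t t' → T.H1 t t'' → G.Adj (T.p1 t') (T.p1 t'') → T.H1 t' t''
  Ext : ∀ t y, G.Adj (T.p1 t) y → (∃ s, T.D s t ∧ T.p0 s = y) ∨
    (∃ t', T.H1 t t' ∧ T.p1 t' = y) ∨ Up G T t y

variable {G : SimpleGraph V} {T : Two V}

/-- Upward neighbours pass to horizontal neighbours. -/
theorem upComp (hL : Loc6 G) (hg : Good G T) {b a : T.S1} {y : V} (hH : T.H1 b a)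
    (hby : G.Adj (T.p1 b) y) (hay : G.Adj (T.p1 a) y) (hU : Up G T b y) : Up G T a y := by
  refine ⟨hay, fun g hga => ?_⟩
  obtain ⟨d, hdb, hda⟩ := hg.K b a hH
  have h1 := hU.2 d hdb
  by_contra hcon
  have hgd : g = d ∨ T.H0 g d := hg.C g d a hga hda
  rcases hgd with rfl | hgd
  · exact hcon h1
  have hgd' := hg.adj0 _ _ hgd
  -- `y ~ p0 g`
  have hyg : G.Adj y (T.p0 g) := by
    by_contra h2
    apply hcon
    refine ⟨?_, h2⟩
    rintro rfl
    exact h1.2 hgd'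
  have hHs := hg.symm1 _ _ hH
  -- the 4-cycle `y, p0 g, p0 d, p1 b` in `N(p1 a)`
  by_cases h3 : G.Adj (T.p0 g) (T.p1 b)
  · have h4 := hg.PHT g a b hga hHs h3
    exact (hU.2 g h4).2 hyg
  · refine hL.1 (T.p1 a) y (T.p0 g) (T.p0 d) (T.p1 b) hay (hg.adjD _ _ hga).symm
      (hg.adjD _ _ hda).symm (hg.adj1 _ _ hHs) hyg hgd' (hg.adjD _ _ hdb) hby h1.1 h1.2
      (hg.PHU g a b hga hHs) h3

/-- The states below a state over `y` form a clique. -/
theorem clique (hL : Loc6 G) (hg : Good G T) {a b c : T.S1} {y : V} (ha : Up G T a y)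
    (hb : b ∈ PS G T a y) (hc : c ∈ PS G T a y) : b = c ∨ T.H1 b c := by
  obtain ⟨hb1, hb2⟩ := hb
  obtain ⟨hc1, hc2⟩ := hc
  rcases hb1 with rfl | hb1
  · rcases hc1 with rfl | hc1
    · exact Or.inl rfl
    · exact Or.inr (hg.symm1 _ _ hc1)
  rcases hc1 with rfl | hc1
  · exact Or.inr hb1
  have hb1' := hg.symm1 _ _ hb1
  have hc1' := hg.symm1 _ _ hc1
  by_cases e1 : T.p1 b = T.p1 c
  · exact Or.inl (hg.HHU a b c hb1' hc1' e1)
  by_cases e2 : G.Adj (T.p1 b) (T.p1 c)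
  · exact Or.inr (hg.HHT a b c hb1' hc1' e2)
  exfalso
  obtain ⟨z, hza, hzb⟩ := hg.K a b hb1'
  obtain ⟨w, hwa, hwc⟩ := hg.K a c hc1'
  have hyz := ha.2 z hza
  have hyw := ha.2 w hwa
  have xy := ha.1
  have xb := hg.adj1 _ _ hb1'
  have xc := hg.adj1 _ _ hc1'
  have xz := (hg.adjD _ _ hza).symm
  have xw := (hg.adjD _ _ hwa).symm
  have zb := hg.adjD _ _ hzb
  have wc := hg.adjD _ _ hwc
  -- four-cycles `y, b, z, c`
  have four : ∀ u : V, G.Adj (T.p1 a) u → y ≠ u → ¬ G.Adj y u → G.Adj u (T.p1 b) →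
      G.Adj u (T.p1 c) → False := fun u xu h1 h2 h3 h4 =>
    hL.1 (T.p1 a) y (T.p1 b) u (T.p1 c) xy xb xu xc hb2.1.symm h3.symm h4 hc2.1 h1 h2 e1 e2
  rcases hg.C z w a hza hwa with rfl | hzw
  · exact four (T.p0 z) xz hyz.1 hyz.2 zb wc
  have zw := hg.adj0 _ _ hzw
  by_cases e3 : G.Adj (T.p1 b) (T.p0 w)
  · exact four (T.p0 w) xw hyw.1 hyw.2 e3.symm wc
  by_cases e4 : G.Adj (T.p1 c) (T.p0 z)
  · exact four (T.p0 z) xz hyz.1 hyz.2 zb e4.symm
  have n3 : T.p1 b ≠ T.p0 w := fun h => hg.PHU w a b hwa hb1' h.symm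
  have n4 : T.p1 c ≠ T.p0 z := fun h => hg.PHU z a c hza hc1' h.symm
  refine hL.2 (T.p1 a) y (T.p1 b) (T.p0 z) (T.p0 w) (T.p1 c) xy xb xz xw xc hb2.1.symm zb.symm
    zw wc hc2.1 hyz.1 hyz.2 n3 e3 n4.symm (fun h => e4 h.symm) (Ne.symm hyw.1)
    (fun h => hyw.2 h.symm) (Ne.symm e1) (fun h => e2 h.symm)

theorem mem_up {q : (next G T).S1} {a : T.S1} (ha : a ∈ q.1.1) : Up G T a q.1.2 := by
  obtain ⟨⟨P, y⟩, c, hc, hP⟩ := q
  simp only at hc hP ha ⊢
  subst hP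
  exact ha.2

theorem eq_PS (hL : Loc6 G) (hg : Good G T) {q : (next G T).S1} {a : T.S1} (ha : a ∈ q.1.1) :
    q.1.1 = PS G T a q.1.2 := by
  obtain ⟨⟨P, y⟩, c, hc, hP⟩ := q
  simp only at hc hP ha ⊢
  subst hP
  have hau : Up G T a y := ha.2
  ext d
  constructor
  · intro hd
    refine ⟨?_, hd.2⟩
    exact clique hL hg hc hd ha
  · intro hd
    refine ⟨?_, hd.2⟩
    have hca : c ∈ PS G T a y := by
      refine ⟨?_, hc⟩
      rcases ha.1 with h | h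
      · exact Or.inl h.symm
      · exact Or.inr (hg.symm1 _ _ h)
    exact clique hL hg hau hd hca

theorem cliqueq (hL : Loc6 G) (hg : Good G T) {q : (next G T).S1} {a b : T.S1}
    (ha : a ∈ q.1.1) (hb : b ∈ q.1.1) : a = b ∨ T.H1 a b := by
  obtain ⟨⟨P, y⟩, c, hc, hP⟩ := q
  simp only at hc hP ha hb
  subst hP
  exact clique hL hg hc ha hb

theorem q_ext (hL : Loc6 G) (hg : Good G T) {q r : (next G T).S1} {a : T.S1}
    (ha : a ∈ q.1.1) (hb : a ∈ r.1.1) (h : q.1.2 = r.1.2) : q = r := by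
  apply Subtype.ext
  apply Prod.ext
  · rw [eq_PS hL hg ha, eq_PS hL hg hb, h]
  · exact h

theorem good_next (hL : Loc6 G) (hg : Good G T) : Good G (next G T) where
  symm1 := fun s t h => ⟨h.1.symm, by obtain ⟨a, h1, h2⟩ := h.2; exact ⟨a, h2, h1⟩⟩
  adj1 := fun s t h => h.1
  adjD := fun s t h => (mem_up h).1
  adj0 := hg.adj1
  C := fun s s' t h h' => cliqueq hL hg h h'
  K := fun t t' h => h.2
  PHU := by
    intro s t t' hs ht heq
    obtain ⟨g, hg1, hg2⟩ := ht.2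
    rcases cliqueq hL hg hs hg1 with rfl | hsg
    · have := (mem_up hg2).1
      exact this.ne heq
    · obtain ⟨d, hds, hdg⟩ := hg.K s g hsg
      have h1 := (mem_up hg2).2 d hdg
      have h2 := hg.adjD _ _ hds
      apply h1.2
      have heq' : T.p1 s = t'.1.2 := heq
      rw [← heq']
      exact h2.symm
  PHT := by
    intro s t t' hs ht hadj
    obtain ⟨g, hg1, hg2⟩ := ht.2
    have hadj' : G.Adj (T.p1 s) t'.1.2 := hadj
    change s ∈ t'.1.1
    rcases cliqueq hL hg hs hg1 with rfl | hsg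
    · exact hg2
    · rw [eq_PS hL hg hg2]
      exact ⟨Or.inr hsg, upComp hL hg (hg.symm1 _ _ hsg) (mem_up hg2).1 hadj' (mem_up hg2)⟩
  HHU := by
    intro t t' t'' h' h'' heq
    obtain ⟨b, hb1, hb2⟩ := h'.2
    obtain ⟨c, hc1, hc2⟩ := h''.2
    have heq' : t'.1.2 = t''.1.2 := heq
    rcases cliqueq hL hg hb1 hc1 with rfl | hbc
    · exact q_ext hL hg hb2 hc2 heq'
    · have : c ∈ t'.1.1 := by
        rw [eq_PS hL hg hb2]
        refine ⟨Or.inr (hg.symm1 _ _ hbc), ?_⟩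
        rw [heq']
        exact mem_up hc2
      exact q_ext hL hg this hc2 heq'
  HHT := by
    intro t t' t'' h' h'' hadj
    obtain ⟨b, hb1, hb2⟩ := h'.2
    obtain ⟨c, hc1, hc2⟩ := h''.2
    have hadj' : G.Adj t'.1.2 t''.1.2 := hadj
    refine ⟨hadj', ?_⟩
    rcases cliqueq hL hg hb1 hc1 with rfl | hbc
    · exact ⟨b, hb2, hc2⟩
    -- PHT for the next level, used twice
    have PHT' : ∀ (s : T.S1) (u : (next G T).S1), s ∈ t.1.1 → (next G T).H1 t u →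
        G.Adj (T.p1 s) u.1.2 → s ∈ u.1.1 := by
      intro s u hs hu hsu
      obtain ⟨g, hg1, hg2⟩ := hu.2
      rcases cliqueq hL hg hs hg1 with rfl | hsg
      · exact hg2
      · rw [eq_PS hL hg hg2]
        exact ⟨Or.inr hsg, upComp hL hg (hg.symm1 _ _ hsg) (mem_up hg2).1 hsu (mem_up hg2)⟩
    have PHU' : ∀ (s : T.S1) (u : (next G T).S1), s ∈ t.1.1 → (next G T).H1 t u →
        T.p1 s ≠ u.1.2 := by
      intro s u hs hu heq
      obtain ⟨g, hg1, hg2⟩ := hu.2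
      rcases cliqueq hL hg hs hg1 with rfl | hsg
      · exact (mem_up hg2).1.ne heq
      · obtain ⟨d, hds, hdg⟩ := hg.K s g hsg
        have h1 := (mem_up hg2).2 d hdg
        have h2 := hg.adjD _ _ hds
        apply h1.2
        rw [← heq]
        exact h2.symm
    by_cases e1 : G.Adj (T.p1 c) t'.1.2
    · exact ⟨c, PHT' c t' hc1 h' e1, hc2⟩
    by_cases e2 : G.Adj (T.p1 b) t''.1.2
    · exact ⟨b, hb2, PHT' b t'' hb1 h'' e2⟩
    exfalso
    exact hL.1 t.1.2 t'.1.2 (T.p1 b) (T.p1 c) t''.1.2 h'.1 (mem_up hb1).1.symm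
      (mem_up hc1).1.symm h''.1 (mem_up hb2).1.symm (hg.adj1 _ _ hbc) (mem_up hc2).1 hadj'.symm
      (Ne.symm (PHU' c t' hc1 h')) (fun h => e1 h.symm) (PHU' b t'' hb1 h'') e2
  Ext := by
    intro t z hz
    have hz' : G.Adj t.1.2 z := hz
    by_cases hU : Up G (next G T) t z
    · exact Or.inr (Or.inr hU)
    have : ∃ a, a ∈ t.1.1 ∧ (z = T.p1 a ∨ G.Adj z (T.p1 a)) := by
      by_contra hcon
      apply hU
      refine ⟨hz, fun s hs => ?_⟩
      constructor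
      · intro h
        exact hcon ⟨s, hs, Or.inl h⟩
      · intro h
        exact hcon ⟨s, hs, Or.inr h⟩
    obtain ⟨a, ha, h | h⟩ := this
    · exact Or.inl ⟨a, ha, h.symm⟩
    · have hau := mem_up ha
      rcases hg.Ext a z h.symm with ⟨s, hs, rfl⟩ | ⟨a', ha', rfl⟩ | hup
      · exact absurd hz' (hau.2 s hs).2
      · left
        refine ⟨a', ?_, rfl⟩
        change a' ∈ t.1.1
        rw [eq_PS hL hg ha]
        exact ⟨Or.inr (hg.symm1 _ _ ha'), upComp hL hg ha' hau.1 hz'.symm hau⟩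
      · right; left
        exact ⟨⟨(PS G T a z, z), a, hup, rfl⟩, ⟨hz', a, ha, ⟨Or.inl rfl, hup⟩⟩, rfl⟩

end Pool.Agent.Helper34.Sys
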